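import Pool.Agent.H77.Q.Defs

set_option autoImplicit false

/-!
A code with sides (MP_a46c6f_co, full Q1) has no word with exactly two letters and `0` elsewhere.
-/

namespace Pool.Agent.H2.Q

open Pool.Agent.H98.Code Pool.Agent.H77.Q

variable {V : Type} [Fintype V] [DecidableEq V]

/-- sides of words: `S u Y` says that `Y` is the set of own places of one side of `u` -/
structure LSides (L : Submodule (ZMod 2) (V → K)) (S : (V → K) → Finset V → Prop) : Prop where
  zero : ∀ u Y, S u Y → ∀ v ∈ Y, u v = 0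
  ex : ∀ u ∈ L, ZFree u → ∃ Y, S u Y
  compl : ∀ u Y, S u Y → S u (Finset.univ.filter fun v => u v = 0 ∧ v ∉ Y)
  part : ∀ u Y, S u Y → ∀ k ∈ L, (∀ v, u v ≠ 0 → k v = 0 ∨ k v = u v) →
    ∃ k' ∈ L, (∀ v ∈ Y, k' v = k v) ∧ (∀ v, u v = 0 → v ∉ Y → k' v = 0) ∧
      (∀ v, u v ≠ 0 → k' v = 0 ∨ k' v = u v)
  mono : ∀ u Y, S u Y → Irr L u → ∀ k ∈ L, ZFree k →
    (∀ v, u v ≠ 0 → k v = 0 ∨ k v = u v) → (∀ v, u v = 0 → v ∉ Y → k v = 0) →
    ∃ Y', Y' ⊆ Y ∧ S k Y'
  wc : ∀ u, S u ∅ → ZFree u → u ≠ 0 → ∃ g, Splits L u g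

theorem k_letter_ne {a : K} (h : a.1 = 1) : a ≠ 0 ∧ a ≠ z := by
  constructor
  · rintro rfl
    exact absurd h (by decide)
  · rintro rfl
    exact absurd h (by decide)

theorem k_ne_of_zf {a : K} (h : a ≠ z) (h0 : a ≠ 0) : a.1 = 1 := by
  revert a; decide

/-- pairing with the constant word `z` -/
theorem sum_fst {L : Submodule (ZMod 2) (V → K)} (hL : IsCode L) (hz1 : (fun _ => z) ∈ L)
    {u : V → K} (hu : u ∈ L) : ∑ v, (u v).1 = 0 := by
  have h := hL.iso u hu _ hz1
  rw [← h]
  unfold form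
  exact Finset.sum_congr rfl fun v _ => (kf_z_right _).symm

section
variable {L : Submodule (ZMod 2) (V → K)} {W : V → K} {p q : V}

/-- a word with letters at most at `p`, `q` -/
theorem fst_eq (hL : IsCode L) (hz1 : (fun _ => z) ∈ L) (hpq : p ≠ q) {u : V → K} (hu : u ∈ L)
    (h0 : ∀ v, v ≠ p → v ≠ q → (u v).1 = 0) : (u p).1 = (u q).1 := by
  have h := sum_fst hL hz1 hu
  rw [← Finset.sum_subset (Finset.subset_univ {p, q}) (fun v _ hv => by
    simp only [Finset.mem_insert, Finset.mem_singleton, not_or] at hv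
    exact h0 v hv.1 hv.2), Finset.sum_pair hpq] at h
  revert h
  generalize (u p).1 = a
  generalize (u q).1 = b
  revert a b
  decide

/-- a word which is below `W` on `p`, `q` and has only `0`, `z` elsewhere is `0` or `W` -/
theorem zero_or_W (hL : IsCode L) (hz1 : (fun _ => z) ∈ L)
    (hz : ∀ u ∈ L, ZOnly u → u = 0 ∨ u = fun _ => z) (hW : W ∈ L) (hpq : p ≠ q)
    (hp : (W p).1 = 1) (hq : (W q).1 = 1) (h0 : ∀ v, v ≠ p → v ≠ q → W v = 0)
    {u : V → K} (hu : u ∈ L) (h1 : ∀ v, v ≠ p → v ≠ q → (u v).1 = 0)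
    (hup : u p = 0 ∨ u p = W p) (huq : u q = 0 ∨ u q = W q) : u = 0 ∨ u = W := by
  have h2 := fst_eq hL hz1 hpq hu h1
  have hnz : ∀ a : K, a + a = 0 := k_add_self
  rcases hup with hup | hup <;> rcases huq with huq | huq
  · -- `u` is a `{0,z}`-word
    rcases hz u hu (by
      intro v
      by_cases hvp : v = p
      · rw [hvp, hup]; rfl
      · by_cases hvq : v = q
        · rw [hvq, huq]; rfl
        · exact h1 v hvp hvq) with h3 | h3
    · exact Or.inl h3
    · rw [h3] at hup
      exact absurd (show z = (0 : K) from hup) (by decide)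
  · rw [hup, huq, hq] at h2
    exact absurd h2 (by decide)
  · rw [hup, huq, hp] at h2
    exact absurd h2 (by decide)
  · right
    rcases hz (u + W) (L.add_mem hu hW) (by
      intro v
      by_cases hvp : v = p
      · rw [hvp, Pi.add_apply, hup, hnz]; rfl
      · by_cases hvq : v = q
        · rw [hvq, Pi.add_apply, huq, hnz]; rfl
        · rw [Pi.add_apply, h0 v hvp hvq, add_zero]
          exact h1 v hvp hvq) with h3 | h3
    · exact (w_add_eq_iff u W 0).1 h3 |>.trans (zero_add W)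
    · have h4 := congrFun h3 p
      rw [Pi.add_apply, hup, hnz] at h4
      exact absurd (show (0 : K) = z from h4) (by decide)

/-- no word has the letter `z` at `g`, is below `W` on `p`, `q` and `0` elsewhere -/
theorem no_zg (hL : IsCode L) (hz1 : (fun _ => z) ∈ L)
    (hz : ∀ u ∈ L, ZOnly u → u = 0 ∨ u = fun _ => z) (hW : W ∈ L) (hpq : p ≠ q)
    (hp : (W p).1 = 1) (hq : (W q).1 = 1) (h0 : ∀ v, v ≠ p → v ≠ q → W v = 0)
    {u : V → K} (hu : u ∈ L) {g : V} (hgp : g ≠ p) (hgq : g ≠ q) (hg : u g = z)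
    (h1 : ∀ v, v ≠ g → v ≠ p → v ≠ q → u v = 0)
    (hup : u p = 0 ∨ u p = W p) (huq : u q = 0 ∨ u q = W q) : False := by
  rcases zero_or_W hL hz1 hz hW hpq hp hq h0 hu (by
    intro v hvp hvq
    by_cases hvg : v = g
    · rw [hvg, hg]; rfl
    · rw [h1 v hvg hvp hvq]; rfl) hup huq with h2 | h2
  · rw [h2] at hg
    exact absurd (show (0 : K) = z from hg) (by decide)
  · rw [h2, h0 g hgp hgq] at hg
    exact absurd hg (by decide)

/-- **no word has exactly two letters and is `0` elsewhere** -/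
theorem no_two {S : (V → K) → Finset V → Prop} (hL : IsCode L) (hz1 : (fun _ => z) ∈ L)
    (hz : ∀ u ∈ L, ZOnly u → u = 0 ∨ u = fun _ => z) (hS : LSides L S) (hW : W ∈ L)
    (hpq : p ≠ q) (hp : (W p).1 = 1) (hq : (W q).1 = 1)
    (h0 : ∀ v, v ≠ p → v ≠ q → W v = 0) : False := by
  have hWp := (k_letter_ne hp).1
  have hWq := (k_letter_ne hq).1
  have hsupp : ∀ v, W v ≠ 0 → v = p ∨ v = q := by
    intro v hv
    by_contra hc
    push Not at hc
    exact hv (h0 v hc.1 hc.2)
  have hWz : ZFree W := by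
    intro v hv
    rcases hsupp v (by rw [hv]; decide) with rfl | rfl
    · exact (k_letter_ne hp).2 hv
    · exact (k_letter_ne hq).2 hv
  have hW0 : W ≠ 0 := fun h => hWp (by rw [h]; rfl)
  have hirr : Irr L W := by
    intro d hd hd1
    refine zero_or_W hL hz1 hz hW hpq hp hq h0 hd ?_ (hd1 p) (hd1 q)
    intro v hvp hvq
    rcases hd1 v with h | h
    · rw [h]; rfl
    · rw [h, h0 v hvp hvq]; rfl
  -- a full word
  obtain ⟨f, hf, hf1, hfp, hfq⟩ : ∃ f ∈ L, (∀ v, v ≠ p → v ≠ q → (f v).1 = 1) ∧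
      (f p = 0 ∨ f p = W p) ∧ (f q = 0 ∨ f q = W q) := by
    let P : Submodule (ZMod 2) (V → K) :=
      { carrier := {r | (∀ v, v ≠ p → v ≠ q → (r v).1 = 0) ∧ kf (r p) (W p) = 0 ∧
          kf (r q) (W q) = 0}
        zero_mem' := ⟨fun _ _ _ => rfl, kf_zero_left _, kf_zero_left _⟩
        add_mem' := by
          rintro r s ⟨h1, h2, h3⟩ ⟨h4, h5, h6⟩
          refine ⟨fun v hv hv' => ?_, ?_, ?_⟩
          · rw [Pi.add_apply, Prod.fst_add, h1 v hv hv', h4 v hv hv', add_zero]
          · rw [Pi.add_apply, kf_add_left, h2, h5, add_zero]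
          · rw [Pi.add_apply, kf_add_left, h3, h6, add_zero]
        smul_mem' := by
          rintro c r ⟨h1, h2, h3⟩
          have hc : c = 0 ∨ c = 1 := by revert c; decide
          rcases hc with rfl | rfl
          · rw [zero_smul]
            exact ⟨fun _ _ _ => rfl, kf_zero_left _, kf_zero_left _⟩
          · rw [one_smul]
            exact ⟨h1, h2, h3⟩ }
    let a : V → K := fun v => if v = p ∨ v = q then 0 else (1, 0)
    have ha0 : ∀ v, v ≠ p → v ≠ q → a v = (1, 0) := by
      intro v h1 h2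
      simp [a, h1, h2]
    have hap : a p = 0 := by simp [a]
    have haq : a q = 0 := by simp [a]
    obtain ⟨l, hl, r, hr, hlr⟩ := mem_sup_of_orth hL P a (by
      intro u hu hu2
      have h1 : ∀ v, v ≠ p → v ≠ q → (u v).1 = 0 := by
        intro v hv hv'
        rw [← kf_z_right, ← form_single]
        apply hu2
        refine ⟨?_, ?_, ?_⟩
        · intro i _ _
          by_cases hi : i = v
          · subst hi; rw [Pi.single_eq_same]; rfl
          · rw [Pi.single_eq_of_ne hi]; rfl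
        · rw [Pi.single_eq_of_ne (Ne.symm hv), kf_zero_left]
        · rw [Pi.single_eq_of_ne (Ne.symm hv'), kf_zero_left]
      have h2 : kf (u p) (W p) = 0 := by
        rw [← form_single]
        apply hu2
        refine ⟨?_, ?_, ?_⟩
        · intro i hi _
          rw [Pi.single_eq_of_ne hi]; rfl
        · rw [Pi.single_eq_same, kf_self]
        · rw [Pi.single_eq_of_ne (Ne.symm hpq), kf_zero_left]
      have h3 : kf (u q) (W q) = 0 := by
        rw [← form_single]
        apply hu2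
        refine ⟨?_, ?_, ?_⟩
        · intro i _ hi
          rw [Pi.single_eq_of_ne hi]; rfl
        · rw [Pi.single_eq_of_ne hpq, kf_zero_left]
        · rw [Pi.single_eq_same, kf_self]
      rw [kf_eq_zero_iff _ _ hWp] at h2
      rw [kf_eq_zero_iff _ _ hWq] at h3
      rcases zero_or_W hL hz1 hz hW hpq hp hq h0 hu h1 h2 h3 with h4 | h4
      · rw [h4]
        unfold form
        exact Finset.sum_eq_zero fun v _ => kf_zero_right _
      · rw [h4]
        unfold form
        refine Finset.sum_eq_zero fun v _ => ?_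
        by_cases hvp : v = p
        · rw [hvp, hap, kf_zero_left]
        · by_cases hvq : v = q
          · rw [hvq, haq, kf_zero_left]
          · rw [h0 v hvp hvq, kf_zero_right])
    have hl' : l = a + r := (w_add_eq_iff _ _ _).1 hlr
    obtain ⟨hr1, hr2, hr3⟩ := hr
    refine ⟨l, hl, ?_, ?_, ?_⟩
    · intro v hv hv'
      rw [hl', Pi.add_apply, Prod.fst_add, ha0 v hv hv', hr1 v hv hv', add_zero]
    · rw [← kf_eq_zero_iff _ _ hWp, hl', Pi.add_apply, hap, zero_add]
      exact hr2
    · rw [← kf_eq_zero_iff _ _ hWq, hl', Pi.add_apply, haq, zero_add]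
      exact hr3
  -- splittings
  have hnosplit : ∀ c ∈ L, ∀ g, c g = z → g ≠ p → g ≠ q →
      (∀ v, v ≠ g → v ≠ p → v ≠ q → c v = 0) → (c p = 0 ∨ c p = W p) →
      (c q = 0 ∨ c q = W q) → False := fun c hc g hg hgp hgq h1 h2 h3 =>
    no_zg hL hz1 hz hW hpq hp hq h0 hc hgp hgq hg h1 h2 h3
  have hns : ¬ ∃ g, Splits L W g := by
    rintro ⟨g, c₁, hc₁, c₂, hc₂, hs, hg1, hg2, hd⟩
    have hWg : W g = 0 := by
      rw [← hs, Pi.add_apply, hg1, hg2]; decide
    have hgp : g ≠ p := fun h => hWp (h ▸ hWg)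
    have hgq : g ≠ q := fun h => hWq (h ▸ hWg)
    have hle : ∀ v, v ≠ g → c₁ v = 0 ∨ c₁ v = W v := by
      intro v hv
      rcases hd v hv with h | h
      · exact Or.inl h
      · right
        rw [← hs, Pi.add_apply, h, add_zero]
    refine hnosplit c₁ hc₁ g hg1 hgp hgq ?_ (hle p (Ne.symm hgp)) (hle q (Ne.symm hgq))
    intro v hv hvp hvq
    rcases hle v hv with h | h
    · exact h
    · rw [h, h0 v hvp hvq]
  -- the sides of `W`
  obtain ⟨Y, hY⟩ := hS.ex W hW hWz
  have hYne : Y ≠ ∅ := by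
    rintro rfl
    exact hns (hS.wc W hY hWz hW0)
  have hYW : ∀ v ∈ Y, v ≠ p ∧ v ≠ q := by
    intro v hv
    have := hS.zero W Y hY v hv
    exact ⟨fun h => hWp (h ▸ this), fun h => hWq (h ▸ this)⟩
  have hfle : ∀ v, W v ≠ 0 → f v = 0 ∨ f v = W v := by
    intro v hv
    rcases hsupp v hv with rfl | rfl
    · exact hfp
    · exact hfq
  obtain ⟨k, hk, hk1, hk2, hk3⟩ := hS.part W Y hY f hf hfle
  have hkY : ∀ v ∈ Y, (k v).1 = 1 := by
    intro v hv
    rw [hk1 v hv]
    exact hf1 v (hYW v hv).1 (hYW v hv).2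
  have hkz : ZFree k := by
    intro v hv
    by_cases hWv : W v = 0
    · by_cases hvY : v ∈ Y
      · exact (k_letter_ne (hkY v hvY)).2 hv
      · rw [hk2 v hWv hvY] at hv
        exact absurd hv (by decide)
    · rcases hk3 v hWv with h | h
      · rw [h] at hv
        exact absurd hv (by decide)
      · exact hWz v (h ▸ hv)
  have hk0 : k ≠ 0 := by
    rintro rfl
    obtain ⟨v, hv⟩ := Finset.nonempty_iff_ne_empty.2 hYne
    have := hkY v hv
    rw [Pi.zero_apply] at this
    exact absurd this (by decide)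
  obtain ⟨Y', hY', hkY'⟩ := hS.mono W Y hY hirr k hk hkz hk3 hk2
  have hY'0 : Y' = ∅ := by
    rw [Finset.eq_empty_iff_forall_notMem]
    intro v hv
    have h1 := hS.zero k Y' hkY' v hv
    exact (k_letter_ne (hkY v (hY' hv))).1 h1
  obtain ⟨g, c₁, hc₁, c₂, hc₂, hs, hg1, hg2, hd⟩ := hS.wc k (hY'0 ▸ hkY') hkz hk0
  have hkg : k g = 0 := by
    rw [← hs, Pi.add_apply, hg1, hg2]; decide
  have hle : ∀ v, v ≠ g → c₁ v = 0 ∨ c₁ v = k v := by
    intro v hv
    rcases hd v hv with h | h
    · exact Or.inl h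
    · right
      rw [← hs, Pi.add_apply, h, add_zero]
  have hgY : g ∉ Y := fun h => (k_letter_ne (hkY g h)).1 hkg
  -- `c₁` is below `W` on the support of `W`, except possibly at `g`
  have hleW : ∀ v, v ≠ g → W v ≠ 0 → c₁ v = 0 ∨ c₁ v = W v := by
    intro v hv hWv
    rcases hle v hv with h | h
    · exact Or.inl h
    · rw [h]; exact hk3 v hWv
  by_cases hWg : W g = 0
  · -- `g` is an own place of the other side
    have hYc := hS.compl W Y hY
    obtain ⟨k', hk', hk'1, hk'2, hk'3⟩ := hS.part W _ hYc c₁ hc₁ (fun v hv =>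
      hleW v (fun h => hv (h ▸ hWg)) hv)
    have hgYc : g ∈ Finset.univ.filter fun v => W v = 0 ∧ v ∉ Y := by
      rw [Finset.mem_filter]
      exact ⟨Finset.mem_univ _, hWg, hgY⟩
    refine hnosplit k' hk' g ?_ (fun h => hWp (h ▸ hWg)) (fun h => hWq (h ▸ hWg)) ?_
      (hk'3 p hWp) (hk'3 q hWq)
    · rw [hk'1 g hgYc, hg1]
    · intro v hv hvp hvq
      have hWv := h0 v hvp hvq
      by_cases hvY : v ∈ Y
      · apply hk'2 v hWv
        rw [Finset.mem_filter]
        exact fun h => h.2.2 hvY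
      · rw [hk'1 v (by rw [Finset.mem_filter]; exact ⟨Finset.mem_univ _, hWv, hvY⟩)]
        rcases hle v hv with h | h
        · exact h
        · rw [h, hk2 v hWv hvY]
  · -- `g` is in the support of `W`
    have hform := hL.iso c₁ hc₁ W hW
    unfold form at hform
    rw [Finset.sum_eq_single g] at hform
    · rw [hg1, kf_z_left] at hform
      rcases hsupp g hWg with h | h
      · rw [h, hp] at hform
        exact absurd hform (by decide)
      · rw [h, hq] at hform
        exact absurd hform (by decide)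
    · intro v _ hv
      by_cases hWv : W v = 0
      · rw [hWv, kf_zero_right]
      · rcases hleW v hv hWv with h | h
        · rw [h, kf_zero_left]
        · rw [h, kf_self]
    · intro h
      exact absurd (Finset.mem_univ g) h

end

end Pool.Agent.H2.Q
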