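import Pool.Agent.H31.Q.Defs
import Pool.Agent.H2.Q.Two

set_option autoImplicit false

/-!
The full state at a place (MP_a46c6f_co, full Q1): words below a full word split, in a code with
sides without removable circuits.
-/

namespace Pool.Agent.H2.Q

open Pool.Agent.H98.Code

variable {V : Type} [Fintype V] [DecidableEq V]

/-- **(K)** a nonzero word which is `0` at `e` and below a word `w` with letters at all places
different from `e` splits at `e` -/
theorem split_below {L : Submodule (ZMod 2) (V → K)} {S : (V → K) → Finset V → Prop}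
    (hL : IsCode L) (hS : Pool.Agent.H31.Q.Sides L S) {e : V} {w : V → K} (hw : w ∈ L)
    (hw1 : ∀ v, v ≠ e → (w v).1 = 1) {u : V → K} (hu : u ∈ L) (hu0 : u ≠ 0) (hue : u e = 0)
    (hle : ∀ v, v ≠ e → u v = 0 ∨ u v = w v) : ∃ g, Splits L u g := by
  classical
  have huz : ZFree u := by
    intro v hv
    by_cases hve : v = e
    · rw [hve, hue] at hv
      exact absurd hv (by decide)
    · rcases hle v hve with h | h
      · rw [h] at hv
        exact absurd hv (by decide)
      · exact (k_letter_ne (hw1 v hve)).2 (h ▸ hv)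
  by_contra hns
  -- the side without `e`
  obtain ⟨Y, hY, heY⟩ : ∃ Y, S u Y ∧ e ∉ Y := by
    obtain ⟨Y, hY⟩ := hS.ex u hu
    by_cases he : e ∈ Y
    · obtain ⟨Y', hY', h⟩ := hS.compl u Y hY
      exact ⟨Y', hY', fun h1 => ((h e).1 h1).2 he⟩
    · exact ⟨Y, hY, he⟩
  have hYne : Y ≠ ∅ := by
    rintro rfl
    exact hns (hS.wc u hY huz hu0)
  have hne : ∀ v ∈ Y, v ≠ e := fun v hv h => heY (h ▸ hv)
  have hsu : ∀ v, u v ≠ 0 → v ≠ e ∧ w v = u v := by
    intro v hv
    have hve : v ≠ e := fun h => hv (h ▸ hue)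
    refine ⟨hve, ?_⟩
    rcases hle v hve with h | h
    · exact absurd h hv
    · exact h.symm
  obtain ⟨k, hk, k1, k2, k3, ⟨Y', hY'Y, hY'⟩, -⟩ := hS.part u Y hY w hw (fun v hv =>
    Or.inr (hsu v hv).2)
  have hk1 : ∀ v ∈ Y, (k v).1 = 1 := by
    intro v hv
    rw [k1 v hv]
    exact hw1 v (hne v hv)
  have hke : k e = 0 := k2 e hue heY
  have hkle : ∀ v, v ≠ e → k v = 0 ∨ k v = w v := by
    intro v hve
    by_cases huv : u v = 0
    · by_cases hvY : v ∈ Y
      · exact Or.inr (k1 v hvY)
      · exact Or.inl (k2 v huv hvY)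
    · rw [(hsu v huv).2]
      exact k3 v huv
  have hkz : ZFree k := by
    intro v hv
    by_cases hve : v = e
    · rw [hve, hke] at hv
      exact absurd hv (by decide)
    · rcases hkle v hve with h | h
      · rw [h] at hv
        exact absurd hv (by decide)
      · exact (k_letter_ne (hw1 v hve)).2 (h ▸ hv)
  have hk0 : k ≠ 0 := by
    rintro rfl
    obtain ⟨v, hv⟩ := Finset.nonempty_iff_ne_empty.2 hYne
    have := hk1 v hv
    rw [Pi.zero_apply] at this
    exact absurd this (by decide)
  have hY'0 : Y' = ∅ := by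
    rw [Finset.eq_empty_iff_forall_notMem]
    intro v hv
    exact (k_letter_ne (hk1 v (hY'Y hv))).1 ((hS.mem k Y' hY').2 v hv)
  obtain ⟨g, c₁, hc₁, c₂, hc₂, hs, hg1, hg2, hd⟩ := hS.wc k (hY'0 ▸ hY') hkz hk0
  have hc1k : ∀ v, v ≠ g → c₁ v = 0 ∨ c₁ v = k v := by
    intro v hv
    rcases hd v hv with h | h
    · exact Or.inl h
    · right
      rw [← hs, Pi.add_apply, h, add_zero]
  by_cases hge : g = e
  · subst hge
    -- the part of the half in the other side
    obtain ⟨Z, hZ, hZm⟩ := hS.compl u Y hY
    have hgZ : g ∈ Z := (hZm g).2 ⟨hue, heY⟩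
    obtain ⟨κ, hκ, κ1, κ2, κ3, -, -⟩ := hS.part u Z hZ c₁ hc₁ (fun v hv => by
      rcases hc1k v (hsu v hv).1 with h | h
      · exact Or.inl h
      · rw [h]; exact k3 v hv)
    have hκg : κ g = z := by rw [κ1 g hgZ, hg1]
    have hκ0 : ∀ v, v ≠ g → u v = 0 → κ v = 0 := by
      intro v hv huv
      by_cases hvY : v ∈ Y
      · exact κ2 v huv (fun h => ((hZm v).1 h).2 hvY)
      · rw [κ1 v ((hZm v).2 ⟨huv, hvY⟩)]
        rcases hc1k v hv with h | h
        · exact h
        · rw [h, k2 v huv hvY]
    apply hns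
    refine ⟨g, κ, hκ, κ + u, L.add_mem hκ hu, ?_, hκg, ?_, ?_⟩
    · rw [← add_assoc, w_add_self, zero_add]
    · rw [Pi.add_apply, hκg, hue, add_zero]
    · intro v hv
      by_cases huv : u v = 0
      · exact Or.inl (hκ0 v hv huv)
      · rcases κ3 v huv with h | h
        · exact Or.inl h
        · right
          rw [Pi.add_apply, h, k_add_self]
  · have hform := hL.iso c₁ hc₁ w hw
    unfold form at hform
    rw [Finset.sum_eq_single g] at hform
    · rw [hg1, kf_z_left, hw1 g hge] at hform
      exact absurd hform (by decide)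
    · intro v _ hv
      by_cases hve : v = e
      · rcases hc1k v hv with h | h
        · rw [h, kf_zero_left]
        · rw [h, hve, hke, kf_zero_left]
      · rcases hc1k v hv with h | h
        · rw [h, kf_zero_left]
        · rcases hkle v hve with h' | h'
          · rw [h, h', kf_zero_left]
          · rw [h, h', kf_self]
    · intro h
      exact absurd (Finset.mem_univ g) h

/-- a word with letters exactly at the places different from `e`, and `0` at `e` -/
theorem exists_off_odd {L : Submodule (ZMod 2) (V → K)} (hL : IsCode L)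
    (hz1 : (fun _ => z) ∈ L) (hz : ∀ u ∈ L, ZOnly u → u = 0 ∨ u = fun _ => z)
    (hodd : ((Fintype.card V : ℕ) : ZMod 2) = 1) (e : V) :
    ∃ w ∈ L, w e = 0 ∧ ∀ v, v ≠ e → (w v).1 = 1 := by
  classical
  let P : Submodule (ZMod 2) (V → K) :=
    { carrier := {q | ZOnly q}
      zero_mem' := fun _ => rfl
      add_mem' := by
        intro q r h1 h2 v
        rw [Pi.add_apply, Prod.fst_add, h1 v, h2 v, add_zero]
      smul_mem' := by
        intro c q h1 v
        rw [Pi.smul_apply, Prod.smul_fst, h1 v, smul_zero] }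
  let a : V → K := fun v => if v = e then 0 else (1, 0)
  have hae : a e = 0 := by simp [a]
  have ha : ∀ v, v ≠ e → a v = (1, 0) := fun v hv => by simp [a, hv]
  have hsum : form a (fun _ => z) = 0 := by
    have h1 : form a (fun _ => z) = ∑ v : V, (if v = e then (0 : ZMod 2) else 1) := by
      unfold form
      refine Finset.sum_congr rfl fun v _ => ?_
      rw [kf_z_right]
      by_cases hv : v = e
      · rw [hv, hae, if_pos rfl]; rfl
      · rw [ha v hv, if_neg hv]
    have h2 : ∑ v : V, (if v = e then (0 : ZMod 2) else 1) +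
        ∑ v : V, (if v = e then (1 : ZMod 2) else 0) = ((Fintype.card V : ℕ) : ZMod 2) := by
      rw [← Finset.sum_add_distrib]
      rw [Finset.sum_congr rfl (fun v _ => show (if v = e then (0 : ZMod 2) else 1) +
        (if v = e then (1 : ZMod 2) else 0) = 1 by split_ifs <;> rfl)]
      simp
    rw [Finset.sum_ite_eq' Finset.univ e (fun _ => (1 : ZMod 2)), if_pos (Finset.mem_univ e),
      hodd] at h2
    rw [h1]
    revert h2
    generalize (∑ v : V, (if v = e then (0 : ZMod 2) else 1)) = c
    revert c
    decide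
  obtain ⟨l, hl, q, hq, hlq⟩ := mem_sup_of_orth hL P a (by
    intro u hu hu2
    have h3 : ZOnly u := by
      intro v
      rw [← kf_z_right, ← form_single]
      apply hu2
      intro i
      by_cases h : i = v
      · subst h
        rw [Pi.single_eq_same]
        rfl
      · rw [Pi.single_eq_of_ne h]
        rfl
    rcases hz u hu h3 with h4 | h4
    · rw [h4]
      simp [form, kf_zero_right]
    · rw [h4]
      exact hsum)
  have hl' : l = a + q := (w_add_eq_iff _ _ _).1 hlq
  have hl1 : ∀ v, (l v).1 = (a v).1 := by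
    intro v
    rw [hl', Pi.add_apply, Prod.fst_add]
    have := hq v
    rw [this, add_zero]
  have hle : (l e).1 = 0 := by rw [hl1, hae]; rfl
  have h1 : ∀ v, v ≠ e → (l v).1 = 1 := fun v hv => by rw [hl1, ha v hv]
  by_cases h0 : (l e).2 = 0
  · exact ⟨l, hl, Prod.ext hle h0, h1⟩
  · refine ⟨l + fun _ => z, L.add_mem hl hz1, ?_, fun v hv => ?_⟩
    · have h2 : (l e).2 = 1 := by
        revert h0
        generalize (l e).2 = c
        revert c
        decide
      rw [Pi.add_apply]
      apply Prod.ext
      · rw [Prod.fst_add, hle]; rfl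
      · rw [Prod.snd_add, h2]; rfl
    · rw [Pi.add_apply, k_fst_add_z]
      exact h1 v hv

end Pool.Agent.H2.Q
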