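import Pool.Agent.H19.QT.Full
import Pool.Agent.H2.Q.K

set_option autoImplicit false

/-!
Words below a covered state split (MP_a46c6f_co, full Q1), and the full state with total word in the
code, in a code with sides without removable circuits.
-/

namespace Pool.Agent.H2.Q

open Pool.Agent.H98.Code Pool.Agent.H19.QT

variable {V : Type} [Fintype V] [DecidableEq V]

/-- **(K)** words below a covered state which are `0` at `e` split -/
theorem ksplit {L : Submodule (ZMod 2) (V → K)} {S : (V → K) → Finset V → Prop}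
    (hL : IsCode L) (hS : Pool.Agent.H31.Q.Sides L S) (e : V) : KSplit L e := by
  classical
  intro D hD hcov u hu hu0 hue
  by_contra hns
  obtain ⟨huL, hule, -⟩ := hu
  -- the side without `e`
  obtain ⟨Y, hY, heY⟩ : ∃ Y, S u Y ∧ e ∉ Y := by
    obtain ⟨Y, hY⟩ := hS.ex u huL
    by_cases he : e ∈ Y
    · obtain ⟨Y', hY', h⟩ := hS.compl u Y hY
      exact ⟨Y', hY', fun h1 => ((h e).1 h1).2 he⟩
    · exact ⟨Y, hY, he⟩
  let P : (V → K) → Finset V → Prop := fun k Y' =>
    k ∈ L ∧ k ≠ 0 ∧ k e = 0 ∧ (∀ v, v ≠ e → k v = 0 ∨ k v = D v) ∧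
      (∀ v, u v ≠ 0 → k v = 0 ∨ k v = u v) ∧ (∀ v, u v = 0 → v ∉ Y → k v = 0) ∧
      Y' ⊆ Y ∧ S k Y'
  have key : ∀ (n : ℕ) (k : V → K) (Y' : Finset V), Y'.card = n → P k Y' → ∃ k₀, P k₀ ∅ := by
    intro n
    induction n using Nat.strong_induction_on with
    | _ n ih =>
      intro k Y' hn hP
      rcases Finset.eq_empty_or_nonempty Y' with h | ⟨v, hv⟩
      · exact ⟨k, h ▸ hP⟩
      · obtain ⟨hk, hk0, hke, hkD, hku, hkY, hYY, hkS⟩ := hP
        have hve : v ≠ e := fun h => heY (h ▸ hYY hv)
        obtain ⟨t, ⟨htL, htD, -⟩, htv⟩ := hcov v hve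
        have htD' : ∀ w, k w ≠ 0 → t w = 0 ∨ t w = k w := by
          intro w hw
          have hwe : w ≠ e := fun h => hw (h ▸ hke)
          rcases hkD w hwe with h | h
          · exact absurd h hw
          · rw [h]; exact htD w hwe
        obtain ⟨k', hk', a1, a2, a3, ⟨Y'', hYs, hS'⟩, -⟩ := hS.part k Y' hkS t htL htD'
        have hk'v : k' v ≠ 0 := by rw [a1 v hv]; exact htv
        have heY' : e ∉ Y' := fun h => heY (hYY h)
        refine ih Y''.card ?_ k' Y'' rfl ⟨hk', ?_, a2 e hke heY', ?_, ?_, ?_, ?_, hS'⟩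
        · rw [← hn]
          apply Finset.card_lt_card
          refine ⟨hYs, fun h => ?_⟩
          exact hk'v ((hS.mem k' Y'' hS').2 v (h hv))
        · rintro rfl
          exact hk'v rfl
        · intro w hwe
          by_cases hkw : k w = 0
          · by_cases hwY : w ∈ Y'
            · rw [a1 w hwY]; exact htD w hwe
            · exact Or.inl (a2 w hkw hwY)
          · rcases hkD w hwe with h | h
            · exact absurd h hkw
            · rw [← h]; exact a3 w hkw
        · intro w huw
          by_cases hkw : k w = 0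
          · have hwY : w ∉ Y' := fun h => huw ((hS.mem u Y hY).2 w (hYY h))
            exact Or.inl (a2 w hkw hwY)
          · rcases hku w huw with h | h
            · exact absurd h hkw
            · rw [← h]; exact a3 w hkw
        · intro w huw hwY
          exact a2 w (hkY w huw hwY) fun h => hwY (hYY h)
        · exact hYs.trans hYY
  have hP0 : P u Y := ⟨huL, hu0, hue, hule, fun v _ => Or.inr rfl, fun v hv _ => hv,
    Finset.Subset.refl _, hY⟩
  obtain ⟨k, hk, hk0, hke, hkD, hku, hkY, -, hkS⟩ := key _ u Y rfl hP0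
  have hkz : ZFree k := by
    intro v hv
    by_cases hve : v = e
    · rw [hve, hke] at hv
      exact absurd hv (by decide)
    · rcases hkD v hve with h | h
      · rw [h] at hv
        exact absurd hv (by decide)
      · exact (k_letter_ne (hD v hve)).2 (h ▸ hv)
  obtain ⟨g, c₁, hc₁, c₂, hc₂, hs, hg1, hg2, hd⟩ := hS.wc k hkS hkz hk0
  have hc1k : ∀ v, v ≠ g → c₁ v = 0 ∨ c₁ v = k v := by
    intro v hv
    rcases hd v hv with h | h
    · exact Or.inl h
    · right
      rw [← hs, Pi.add_apply, h, add_zero]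
  by_cases hge : g = e
  · subst hge
    obtain ⟨Z, hZ, hZm⟩ := hS.compl u Y hY
    have hgZ : g ∈ Z := (hZm g).2 ⟨hue, heY⟩
    obtain ⟨κ, hκ, κ1, κ2, κ3, -, -⟩ := hS.part u Z hZ c₁ hc₁ (fun v hv => by
      have hvg : v ≠ g := fun h => hv (h ▸ hue)
      rcases hc1k v hvg with h | h
      · exact Or.inl h
      · rw [h]; exact hku v hv)
    have hκg : κ g = z := by rw [κ1 g hgZ, hg1]
    have hκ0 : ∀ v, v ≠ g → u v = 0 → κ v = 0 := by
      intro v hv huv
      by_cases hvY : v ∈ Y
      · exact κ2 v huv (fun h => ((hZm v).1 h).2 hvY)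
      · rw [κ1 v ((hZm v).2 ⟨huv, hvY⟩)]
        rcases hc1k v hv with h | h
        · exact h
        · rw [h, hkY v huv hvY]
    apply hns
    refine ⟨g, κ, hκ, κ + u, L.add_mem hκ huL, ?_, hκg, ?_, ?_⟩
    · rw [← add_assoc, w_add_self, zero_add]
    · rw [Pi.add_apply, hκg, hue, add_zero]
    · intro v hv
      by_cases huv : u v = 0
      · exact Or.inl (hκ0 v hv huv)
      · rcases κ3 v huv with h | h
        · exact Or.inl h
        · right
          rw [Pi.add_apply, h, Pool.Agent.H98.Code.k_add_self]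
  · obtain ⟨t, ⟨htL, htD, -⟩, htg⟩ := hcov g hge
    have htg' : t g = D g := by
      rcases htD g hge with h | h
      · exact absurd h htg
      · exact h
    have hform := hL.iso c₁ hc₁ t htL
    unfold form at hform
    rw [Finset.sum_eq_single g] at hform
    · rw [hg1, kf_z_left, htg', hD g hge] at hform
      exact absurd hform (by decide)
    · intro v _ hv
      by_cases hve : v = e
      · rcases hc1k v hv with h | h
        · rw [h, kf_zero_left]
        · rw [h, hve, hke, kf_zero_left]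
      · rcases hc1k v hv with h | h
        · rw [h, kf_zero_left]
        · rcases hkD v hve with h' | h'
          · rw [h, h', kf_zero_left]
          · rcases htD v hve with h'' | h''
            · rw [h'', kf_zero_right]
            · rw [h, h', h'', kf_self]
    · intro h
      exact absurd (Finset.mem_univ g) h

/-- the full state at `e` whose total word is `0` at `e` -/
theorem start {L : Submodule (ZMod 2) (V → K)} {S : (V → K) → Finset V → Prop} (hL : IsCode L)
    (hz1 : (fun _ => z) ∈ L) (hz : ∀ u ∈ L, ZOnly u → u = 0 ∨ u = fun _ => z)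
    (hS : Pool.Agent.H31.Q.Sides L S) (hodd : ((Fintype.card V : ℕ) : ZMod 2) = 1) (e : V)
    (hc : ∃ c : V, c ≠ e) : ∃ D, Hyp L e D ∧ D ∈ L ∧ D e = 0 := by
  obtain ⟨w, hwL, hwe, hw1⟩ := exists_off_odd hL hz1 hz hodd e
  obtain ⟨c, hc⟩ := hc
  have hw0 : w ≠ 0 := by
    intro h0
    have := hw1 c hc
    rw [h0, Pi.zero_apply] at this
    exact absurd this (by decide)
  obtain ⟨g, c₁, hc₁, c₂, hc₂, hsum, hg1, hg2, hd⟩ := split_below hL hS hwL hw1 hwL hw0 hwe
    (fun v _ => Or.inr rfl)
  have hge : g = e := by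
    by_contra hne
    have h1 := hw1 g hne
    rw [← hsum, Pi.add_apply, hg1, hg2] at h1
    exact absurd h1 (by decide)
  subst hge
  have hval : ∀ v, v ≠ g → (c₁ v = 0 ∨ c₁ v = w v) ∧ (c₂ v = 0 ∨ c₂ v = w v) := by
    intro v hv
    have hs : w v = c₁ v + c₂ v := by rw [← hsum]; rfl
    rcases hd v hv with h1 | h1
    · rw [h1, zero_add] at hs
      exact ⟨Or.inl h1, Or.inr hs.symm⟩
    · rw [h1, add_zero] at hs
      exact ⟨Or.inr hs.symm, Or.inl h1⟩
  have hnoz : ∀ u ∈ L, (∀ v, v ≠ g → u v = 0) → u g ≠ z := by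
    intro u hu h0 he
    rcases hz u hu (by
      intro v
      by_cases hv : v = g
      · rw [hv, he]; rfl
      · rw [h0 v hv]; rfl) with h1 | h1
    · rw [h1] at he
      exact absurd (show (0 : K) = z from he) (by decide)
    · have h2 := h0 c hc
      rw [h1] at h2
      exact absurd (show z = (0 : K) from h2) (by decide)
  refine ⟨w, ⟨hL.iso, hnoz, ksplit hL hS g, hw1, ?_⟩, hwL, hwe⟩
  intro v hv
  by_cases h1 : c₁ v = 0
  · refine ⟨c₂, ⟨hc₂, fun v hv => (hval v hv).2, Or.inr hg2⟩, ?_⟩
    intro h2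
    have h3 := hw1 v hv
    rw [← hsum, Pi.add_apply, h1, h2] at h3
    exact absurd h3 (by decide)
  · exact ⟨c₁, ⟨hc₁, fun v hv => (hval v hv).1, Or.inr hg1⟩, h1⟩

end Pool.Agent.H2.Q
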